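import Pool.Agent.Q264.SN.Final
import Pool.Agent.Q121.SN.LOWER
import Pool.Agent.Q121.SN.TAIL
import Pool.Agent.Q121.SN.TWO
import Pool.Agent.Q32.SN.MONO
import Pool.Agent.Q162.SN.Poly
import Pool.Agent.Q162.SN.Meas
import Pool.Agent.Q162.SN.Four

/-!
# MP_885abb_co: the Schrijver number is not quasi-multiplicative under strong products

For every `r ≥ 2` and every `C` there is a finite graph `G` with `ϑ'(G) ≥ 2` and
`ϑ'(G ⊠ ⋯ ⊠ G) > ϑ'(G)^C ⋯ ϑ'(G)^C` (`r` factors). This is the negated form of Q1, for every `r ≥ 2`.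
-/

namespace Pool.Agent.Results.MP_885abb_co.SuperpolynomialProducts

open Pool.Agent.Q264.SN

theorem result (r : ℕ) (hr : 2 ≤ r) (C : ℝ) :
    ∃ (V : Type) (_ : Fintype V) (G : SimpleGraph V), 2 ≤ schrijver G ∧
      ∏ _i : Fin r, schrijver G ^ C < schrijver (strongProd fun _ : Fin r => G) := by
  have hFEAS : S_FEAS :=
    t_FEAS Pool.Agent.Q162.SN.t_ROW Pool.Agent.Q162.SN.t_FOUR Pool.Agent.Q162.SN.t_ONE
  have hMEAS : S_MEAS := Pool.Agent.Q162.SN.t_MEAS Pool.Agent.Q162.SN.t_POLY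
  have hLOWER : S_LOWER := Pool.Agent.Q121.SN.LOWER.t_LOWER hMEAS Pool.Agent.Q121.SN.TAIL.t_TAIL hFEAS
  have h : S_FINAL := t_FINAL hLOWER Pool.Agent.Q32.SN.t_MONO Pool.Agent.Q121.SN.TWO.t_BDD
    (Pool.Agent.Q121.SN.TWO.t_TWO Pool.Agent.Q121.SN.TWO.t_BDD) Pool.Agent.Q121.SN.TWO.t_UP
  obtain ⟨N, σ, h1, h2⟩ := h r hr C
  exact ⟨Cube N, inferInstance, cubeGraph N σ, h1, h2⟩

end Pool.Agent.Results.MP_885abb_co.SuperpolynomialProducts
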